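import Pool.Agent.H741.RS.Stm

/-!
# Project RS (helper741): the representation of the unitary group on the Hermitian kernels (helper84)

`t_REPK : S_REPK`. The tensors `TT n k = (ℂ ⊕ ℂⁿ)^{⊗k} ⊗ conj (ℂ ⊕ ℂⁿ)^{⊗k}` with their standard Hermitian
scalar product carry the representation `Th` of the unitary group and an equivariant linear map `kap` to
the kernels. `E` is the orthogonal complement of the kernel of `kap` in the space of the tensors which
give Hermitian kernels with `AKer`; the derivative is obtained from Taylor's formula and projected to `E`.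
-/

set_option autoImplicit false
open scoped ComplexConjugate

namespace Pool.Agent.H84.RS

open Pool.Agent.H741.RS

/-! ### the kernels -/

theorem ev_C_mul {n : ℕ} (c : ℂ) (P : MvPolynomial (Fin n) ℂ) (z : V n) :
    ev (MvPolynomial.C c * P) z = c * ev P z := by
  simp [ev]

theorem hker_add {n i j : ℕ} {u v : V n → V n → ℂ} (hu : HKer i j u) (hv : HKer i j v) :
    HKer i j (fun z w => u z w + v z w) := by
  obtain ⟨m, a, b, h1, h2⟩ := hu
  obtain ⟨m', a', b', h1', h2'⟩ := hv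
  refine ⟨m + m', Fin.append a a', Fin.append b b', ?_, ?_⟩
  · intro x
    refine Fin.addCases (fun y => ?_) (fun y => ?_) x
    · rw [Fin.append_left, Fin.append_left]
      exact h1 y
    · rw [Fin.append_right, Fin.append_right]
      exact h1' y
  · intro z w
    beta_reduce
    rw [Fin.sum_univ_add, h2, h2']
    simp only [Fin.append_left, Fin.append_right]

theorem hker_smul {n i j : ℕ} {u : V n → V n → ℂ} (hu : HKer i j u) (c : ℂ) :
    HKer i j (fun z w => c * u z w) := by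
  obtain ⟨m, a, b, h1, h2⟩ := hu
  refine ⟨m, fun x => MvPolynomial.C c * a x, b, fun x => ⟨(h1 x).1.C_mul c, (h1 x).2⟩, ?_⟩
  intro z w
  beta_reduce
  rw [h2, Finset.mul_sum]
  refine Finset.sum_congr rfl fun x _ => ?_
  rw [ev_C_mul]
  ring

theorem hker_zero {n i j : ℕ} : HKer i j (fun _ _ : V n => (0 : ℂ)) :=
  ⟨0, Fin.elim0, Fin.elim0, fun x => x.elim0, fun z w => by simp⟩

theorem aker_add {n k : ℕ} {u v : V n → V n → ℂ} (hu : AKer k u) (hv : AKer k v) :
    AKer k (fun z w => u z w + v z w) := by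
  obtain ⟨a, h1, h2, h3, h4, h5⟩ := hu
  obtain ⟨b, h1', h2', h3', h4', h5'⟩ := hv
  refine ⟨fun i j z w => a i j z w + b i j z w, fun i j => hker_add (h1 i j) (h1' i j), ?_, ?_, ?_,
    fun z w => ?_⟩
  · funext z w
    beta_reduce
    rw [h2, h2']
    simp
  · funext z w
    beta_reduce
    rw [h3, h3']
    simp
  · funext z w
    beta_reduce
    rw [h4, h4']
    simp
  · beta_reduce
    rw [h5, h5', ← Finset.sum_add_distrib]
    refine Finset.sum_congr rfl fun i _ => ?_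
    rw [← Finset.sum_add_distrib]

theorem aker_smul {n k : ℕ} {u : V n → V n → ℂ} (hu : AKer k u) (c : ℂ) :
    AKer k (fun z w => c * u z w) := by
  obtain ⟨a, h1, h2, h3, h4, h5⟩ := hu
  refine ⟨fun i j z w => c * a i j z w, fun i j => hker_smul (h1 i j) c, ?_, ?_, ?_,
    fun z w => ?_⟩
  · funext z w
    beta_reduce
    rw [h2]
    simp
  · funext z w
    beta_reduce
    rw [h3]
    simp
  · funext z w
    beta_reduce
    rw [h4]
    simp
  · beta_reduce
    rw [h5, Finset.mul_sum]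
    refine Finset.sum_congr rfl fun i _ => ?_
    rw [Finset.mul_sum]

theorem aker_zero {n k : ℕ} : AKer k (fun _ _ : V n => (0 : ℂ)) :=
  ⟨fun _ _ _ _ => 0, fun i j => hker_zero, rfl, rfl, rfl, fun z w => by simp⟩

/-- the real vector space of the kernels -/
def KS (n k : ℕ) : Submodule ℝ (V n → V n → ℂ) where
  carrier := {u | Herm u ∧ AKer k u}
  zero_mem' := ⟨fun z w => by simp, aker_zero⟩
  add_mem' := by
    rintro u v ⟨h1, h2⟩ ⟨h3, h4⟩
    refine ⟨fun z w => ?_, aker_add h2 h4⟩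
    change u w z + v w z = conj (u z w + v z w)
    rw [h1 z w, h3 z w, map_add]
  smul_mem' := by
    rintro c u ⟨h1, h2⟩
    have e : c • u = fun z w => (c : ℂ) * u z w := by
      funext z w
      change c • u z w = (c : ℂ) * u z w
      exact Complex.real_smul
    rw [e]
    refine ⟨fun z w => ?_, aker_smul h2 c⟩
    change (c : ℂ) * u w z = conj ((c : ℂ) * u z w)
    rw [h1 z w, map_mul, Complex.conj_ofReal]

/-- linear substitutions -/
theorem subst {n : ℕ} (L : V n →L[ℂ] V n) {i : ℕ} {P : MvPolynomial (Fin n) ℂ}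
    (hP : P.IsHomogeneous i) : ∃ Q : MvPolynomial (Fin n) ℂ, Q.IsHomogeneous i ∧
      ∀ z, ev Q z = ev P (L z) := by
  let g : Fin n → MvPolynomial (Fin n) ℂ := fun a =>
    ∑ b, MvPolynomial.C ((L (EuclideanSpace.single b 1)) a) * MvPolynomial.X b
  have hg : ∀ a, (g a).IsHomogeneous 1 := by
    intro a
    refine MvPolynomial.IsHomogeneous.sum _ _ _ fun b _ => ?_
    exact (MvPolynomial.isHomogeneous_X ℂ b).C_mul _
  refine ⟨MvPolynomial.aeval g P, ?_, ?_⟩
  · have h1 := hP.aeval g hg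
    rwa [one_mul] at h1
  · intro z
    have h2 : ∀ a, MvPolynomial.eval (fun i => z i) (g a) = (L z) a := by
      intro a
      have h3 : z = ∑ b, z b • (EuclideanSpace.single b (1 : ℂ) : V n) := by
        ext c
        simp [Pi.single_apply]
      have h4 : L z = ∑ b, z b • L (EuclideanSpace.single b (1 : ℂ)) := by
        conv_lhs => rw [h3]
        rw [map_sum]
        exact Finset.sum_congr rfl fun b _ => map_smul _ _ _
      rw [h4]
      simp only [g, map_sum, map_mul, MvPolynomial.eval_C, MvPolynomial.eval_X]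
      simp [mul_comm]
    unfold ev
    rw [← MvPolynomial.coe_aeval_eq_eval, ← MvPolynomial.coe_aeval_eq_eval]
    change (MvPolynomial.aeval fun i => z i) (MvPolynomial.aeval g P) = _
    rw [MvPolynomial.comp_aeval_apply]
    have h5 : (fun i => (MvPolynomial.aeval fun i => z i) (g i)) = fun i => (L z) i := by
      funext a
      exact h2 a
    rw [h5]
    rfl

theorem hker_subst {n i j : ℕ} (L : V n →L[ℂ] V n) {u : V n → V n → ℂ} (hu : HKer i j u) :
    HKer i j (fun z w => u (L z) (L w)) := by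
  obtain ⟨m, a, b, h1, h2⟩ := hu
  choose a' ha' ha using fun x => subst L (h1 x).1
  choose b' hb' hb using fun x => subst L (h1 x).2
  refine ⟨m, a', b', fun x => ⟨ha' x, hb' x⟩, fun z w => ?_⟩
  beta_reduce
  rw [h2]
  refine Finset.sum_congr rfl fun x _ => ?_
  rw [ha, hb]

theorem aker_subst {n k : ℕ} (L : V n →L[ℂ] V n) {u : V n → V n → ℂ} (hu : AKer k u) :
    AKer k (fun z w => u (L z) (L w)) := by
  obtain ⟨a, h1, h2, h3, h4, h5⟩ := hu
  refine ⟨fun i j z w => a i j (L z) (L w), fun i j => hker_subst L (h1 i j), ?_, ?_, ?_,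
    fun z w => ?_⟩
  · beta_reduce
    rw [h2]; rfl
  · beta_reduce
    rw [h3]; rfl
  · beta_reduce
    rw [h4]; rfl
  · beta_reduce
    rw [h5]

theorem ks_subst {n k : ℕ} (L : V n →L[ℂ] V n) {u : V n → V n → ℂ} (hu : u ∈ KS n k) :
    (fun z w => u (L z) (L w)) ∈ KS n k :=
  ⟨fun z w => hu.1 (L z) (L w), aker_subst L hu.2⟩

/-! ### Taylor's formula -/

theorem taylor {X Y : Type} [NormedAddCommGroup X] [NormedSpace ℝ X] [ProperSpace X]
    [NormedAddCommGroup Y] [NormedSpace ℝ Y] (f : X → Y) (hf : ContDiff ℝ 2 f) :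
    ∃ C : ℝ, 0 ≤ C ∧ ∀ x, ‖x‖ ≤ 2 → ‖f x - f 0 - fderiv ℝ f 0 x‖ ≤ C * ‖x‖ ^ 2 := by
  have hg : ContDiff ℝ 1 (fderiv ℝ f) := hf.fderiv_right (by norm_num)
  have hgc : Continuous (fderiv ℝ (fderiv ℝ f)) := hg.continuous_fderiv (by norm_num)
  have hn : Continuous fun x => ‖fderiv ℝ (fderiv ℝ f) x‖ :=
    (continuous_norm (E := X →L[ℝ] X →L[ℝ] Y)).comp hgc
  obtain ⟨C, hC'⟩ := (isCompact_closedBall (0 : X) 2).exists_bound_of_continuousOn
    hn.continuousOn
  have hC : ∀ x ∈ Metric.closedBall (0 : X) 2, ‖fderiv ℝ (fderiv ℝ f) x‖ ≤ C := fun x hx =>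
    (le_abs_self _).trans (hC' x hx)
  have hC0 : 0 ≤ C := le_trans (abs_nonneg _) (hC' 0 (by simp))
  refine ⟨C, hC0, fun x hx => ?_⟩
  have h1 : ∀ y ∈ Metric.closedBall (0 : X) ‖x‖, ‖fderiv ℝ f y - fderiv ℝ f 0‖ ≤ C * ‖x‖ := by
    intro y hy
    have hy' : ‖y‖ ≤ ‖x‖ := by simpa using hy
    have h2 := (convex_closedBall (0 : X) 2).norm_image_sub_le_of_norm_fderiv_le
      (f := fderiv ℝ f) (𝕜 := ℝ) (C := C) (x := 0) (y := y)
      (fun z _ => (hg.differentiable (by norm_num)) z) hC (by simp)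
      (by simpa using hy'.trans hx)
    rw [sub_zero] at h2
    exact h2.trans (mul_le_mul_of_nonneg_left hy' hC0)
  have h3 := (convex_closedBall (0 : X) ‖x‖).norm_image_sub_le_of_norm_fderiv_le'
    (f := f) (𝕜 := ℝ) (C := C * ‖x‖) (φ := fderiv ℝ f 0) (x := 0) (y := x)
    (fun z _ => (hf.differentiable (by norm_num)) z) h1 (by simp) (by simp)
  rw [sub_zero] at h3
  refine h3.trans (le_of_eq ?_)
  ring

/-! ### the reduction to a representation with invariant scalar product -/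

theorem norm_sub_one {n : ℕ} (U : V n ≃ₗᵢ[ℂ] V n) :
    ‖(U : V n →L[ℂ] V n) - 1‖ ≤ 2 := by
  refine ContinuousLinearMap.opNorm_le_bound _ (by norm_num) fun x => ?_
  have h1 : ‖((U : V n →L[ℂ] V n) - 1) x‖ = ‖U x - x‖ := rfl
  rw [h1]
  calc ‖U x - x‖ ≤ ‖U x‖ + ‖x‖ := norm_sub_le _ _
    _ = 2 * ‖x‖ := by rw [U.norm_map]; ring

theorem reduce (n k : ℕ) (T : Type) [NormedAddCommGroup T] [InnerProductSpace ℂ T]
    [FiniteDimensional ℂ T] (Θ : (V n →L[ℂ] V n) → (T →L[ℂ] T)) (h1 : Θ 1 = 1)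
    (hmul : ∀ M N, Θ (M * N) = Θ M * Θ N)
    (hiso : ∀ (U : V n ≃ₗᵢ[ℂ] V n) (x : T), ‖Θ (U : V n →L[ℂ] V n) x‖ = ‖x‖)
    (D : (V n →L[ℂ] V n) →ₗ[ℝ] (T →L[ℂ] T)) (C : ℝ) (hC : 0 ≤ C)
    (hD : ∀ M, ‖M - 1‖ ≤ 2 → ‖Θ M - 1 - D (M - 1)‖ ≤ C * ‖M - 1‖ ^ 2)
    (κ : T →ₗ[ℂ] (V n → V n → ℂ))
    (hκ : ∀ (U : V n ≃ₗᵢ[ℂ] V n) (t : T) (z w : V n),
      κ (Θ (U : V n →L[ℂ] V n) t) (U z) (U w) = κ t z w)
    (hr : ∀ u : V n → V n → ℂ, AKer k u → ∃ t, κ t = u) :
    ∃ (E : Type) (_ : NormedAddCommGroup E) (_ : InnerProductSpace ℝ E)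
    (_ : FiniteDimensional ℝ E) (R : Rep n E) (κ : E →ₗ[ℝ] (V n → V n → ℂ)),
    Function.Injective κ ∧ (∀ x, Herm (κ x) ∧ AKer k (κ x)) ∧
    (∀ u : V n → V n → ℂ, Herm u → AKer k u → ∃ x, κ x = u) ∧
    ∀ (U : V n ≃ₗᵢ[ℂ] V n) (x : E) (z w : V n), κ (R.ρ U x) (U z) (U w) = κ x z w := by
  classical
  let _ : InnerProductSpace ℝ T := InnerProductSpace.rclikeToReal ℂ T
  let κR : T →ₗ[ℝ] (V n → V n → ℂ) := κ.restrictScalars ℝ
  let N : Submodule ℝ T := LinearMap.ker κR
  let S : Submodule ℝ T := (KS n k).comap κR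
  let E : Submodule ℝ T := S ⊓ Nᗮ
  have hm2 : ∀ U U' : V n ≃ₗᵢ[ℂ] V n, Θ ((U * U' : V n ≃ₗᵢ[ℂ] V n) : V n →L[ℂ] V n) =
      Θ (U : V n →L[ℂ] V n) * Θ (U' : V n →L[ℂ] V n) := by
    intro U U'
    rw [← hmul]
    rfl
  have hm1 : Θ ((1 : V n ≃ₗᵢ[ℂ] V n) : V n →L[ℂ] V n) = 1 := by
    rw [← h1]
    rfl
  let L : (V n ≃ₗᵢ[ℂ] V n) → (T →ₗᵢ[ℝ] T) := fun U =>
    ⟨(Θ (U : V n →L[ℂ] V n) : T →ₗ[ℂ] T).restrictScalars ℝ, hiso U⟩
  have hL : ∀ U t, L U t = Θ (U : V n →L[ℂ] V n) t := fun U t => rfl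
  have hLm : ∀ U U' t, L (U * U') t = L U (L U' t) := by
    intro U U' t
    rw [hL, hL, hL, hm2]
    rfl
  have hL1 : ∀ t, L 1 t = t := by
    intro t
    rw [hL, hm1]
    rfl
  have hLκ : ∀ (U : V n ≃ₗᵢ[ℂ] V n) t, κ (L U t) = fun z w => κ t (U⁻¹ z) (U⁻¹ w) := by
    intro U t
    funext z w
    have h2 := hκ U t (U⁻¹ z) (U⁻¹ w)
    have h3 : ∀ x : V n, U (U⁻¹ x) = x := fun x => U.apply_symm_apply x
    rw [h3, h3] at h2
    exact h2
  have hN : ∀ (U : V n ≃ₗᵢ[ℂ] V n) t, t ∈ N → L U t ∈ N := by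
    intro U t ht
    have h2 : κ t = 0 := ht
    change κ (L U t) = 0
    rw [hLκ, h2]
    rfl
  have hE : ∀ (U : V n ≃ₗᵢ[ℂ] V n) t, t ∈ E → L U t ∈ E := by
    intro U t ht
    obtain ⟨hS, hNo⟩ := Submodule.mem_inf.mp ht
    refine Submodule.mem_inf.mpr ⟨?_, ?_⟩
    · change κ (L U t) ∈ KS n k
      rw [hLκ]
      exact ks_subst ((U⁻¹ : V n ≃ₗᵢ[ℂ] V n) : V n →L[ℂ] V n) hS
    · rw [Submodule.mem_orthogonal] at hNo ⊢
      intro s hs
      have h2 : s = L U (L U⁻¹ s) := by rw [← hLm, mul_inv_cancel, hL1]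
      rw [h2, LinearIsometry.inner_map_map]
      exact hNo _ (hN _ _ hs)
  let lE : (V n ≃ₗᵢ[ℂ] V n) → (E →ₗ[ℝ] E) := fun U => (L U).toLinearMap.restrict (hE U)
  have hlE : ∀ U (x : E), ((lE U x : E) : T) = L U x := fun U x => rfl
  let ρ : (V n ≃ₗᵢ[ℂ] V n) →* (E ≃ₗᵢ[ℝ] E) :=
    { toFun := fun U => ⟨LinearEquiv.ofLinearMap (lE U) (lE U⁻¹)
        (by
          ext x
          change L U (L U⁻¹ x) = x
          rw [← hLm, mul_inv_cancel, hL1])
        (by
          ext x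
          change L U⁻¹ (L U x) = x
          rw [← hLm, inv_mul_cancel, hL1]), fun x => (L U).norm_map x⟩
      map_one' := by
        ext x
        change L 1 x = x
        rw [hL1]
      map_mul' := by
        intro U U'
        ext x
        change L (U * U') x = L U (L U' x)
        rw [hLm] }
  have hρ : ∀ U (x : E), ((ρ U x : E) : T) = L U x := fun U x => rfl
  let DE : (V n →L[ℂ] V n) →ₗ[ℝ] (E →ₗ[ℝ] E) :=
    { toFun := fun X => (E.orthogonalProjectionOnto : T →ₗ[ℝ] E) ∘ₗ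
        ((D X : T →ₗ[ℂ] T).restrictScalars ℝ) ∘ₗ E.subtype
      map_add' := by
        intro X Y
        ext x
        simp
      map_smul' := by
        intro c X
        ext x
        simp }
  have hDE : ∀ X (x : E), DE X x = E.orthogonalProjectionOnto (D X (x : T)) := fun X x => rfl
  refine ⟨E, inferInstance, inferInstance, inferInstance,
    ⟨ρ, DE, C, hC, ?_⟩, κR.domRestrict E, ?_, ?_, ?_, ?_⟩
  · intro U x
    have h2 : ρ U x - x - DE ((U : V n →L[ℂ] V n) - ContinuousLinearMap.id ℂ (V n)) x =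
        E.orthogonalProjectionOnto ((Θ (U : V n →L[ℂ] V n) - 1 - D ((U : V n →L[ℂ] V n) - 1)) (x : T)) := by
      have h3 : (Θ (U : V n →L[ℂ] V n) - 1 - D ((U : V n →L[ℂ] V n) - 1)) (x : T) =
          ((ρ U x : E) : T) - ((x : E) : T) - D ((U : V n →L[ℂ] V n) - 1) (x : T) := rfl
      have h4 : E.orthogonalProjectionOnto ((ρ U x : E) : T) = ρ U x :=
        Submodule.orthogonalProjectionOnto_mem_subspace_eq_self _
      have h5 : E.orthogonalProjectionOnto ((x : E) : T) = x :=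
        Submodule.orthogonalProjectionOnto_mem_subspace_eq_self _
      rw [h3, E.orthogonalProjectionOnto.map_sub, E.orthogonalProjectionOnto.map_sub, h4, h5]
      rfl
    rw [h2]
    calc _ ≤ ‖(Θ (U : V n →L[ℂ] V n) - 1 - D ((U : V n →L[ℂ] V n) - 1)) (x : T)‖ :=
          Submodule.norm_orthogonalProjectionOnto_apply_le _ _
      _ ≤ ‖Θ (U : V n →L[ℂ] V n) - 1 - D ((U : V n →L[ℂ] V n) - 1)‖ * ‖(x : T)‖ :=
          ContinuousLinearMap.le_opNorm _ _
      _ ≤ _ := mul_le_mul_of_nonneg_right (hD _ (norm_sub_one U)) (norm_nonneg _)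
  · rw [injective_iff_map_eq_zero]
    rintro ⟨x, hx⟩ h2
    obtain ⟨hS, hNo⟩ := Submodule.mem_inf.mp hx
    have h3 : x ∈ N := h2
    have h4 : x ∈ N ⊓ Nᗮ := ⟨h3, hNo⟩
    rw [Submodule.inf_orthogonal_eq_bot] at h4
    exact Subtype.ext ((Submodule.mem_bot ℝ).mp h4)
  · rintro ⟨x, hx⟩
    exact (Submodule.mem_inf.mp hx).1
  · intro u hu1 hu2
    obtain ⟨t, ht⟩ := hr u hu2
    have h3 : κR (t - N.orthogonalProjectionOnto t) = u := by
      rw [map_sub]
      have h4 : κR (N.orthogonalProjectionOnto t : T) = 0 := (N.orthogonalProjectionOnto t).2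
      rw [h4, sub_zero]
      exact ht
    refine ⟨⟨t - N.orthogonalProjectionOnto t, Submodule.mem_inf.mpr ⟨?_, ?_⟩⟩, h3⟩
    · change κR (t - N.orthogonalProjectionOnto t) ∈ KS n k
      rw [h3]
      exact ⟨hu1, hu2⟩
    · exact N.sub_starProjection_mem_orthogonal t
  · intro U x z w
    exact hκ U x z w

/-! ### tensors -/

/-- the matrix of `1 ⊕ M` -/
noncomputable def mm {n : ℕ} (M : V n →L[ℂ] V n) : Option (Fin n) → Option (Fin n) → ℂ
  | none, none => 1
  | some i, some j => (M (EuclideanSpace.single j 1)) i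
  | none, some _ => 0
  | some _, none => 0

/-- the vector `(1, z)` -/
noncomputable def Zv {n : ℕ} (z : V n) : Option (Fin n) → ℂ
  | none => 1
  | some i => z i

theorem basis_exp {n : ℕ} (M : V n →L[ℂ] V n) (z : V n) (a : Fin n) :
    (M z) a = ∑ b, (M (EuclideanSpace.single b (1 : ℂ))) a * z b := by
  have h3 : z = ∑ b, z b • (EuclideanSpace.single b (1 : ℂ) : V n) := by
    ext c
    simp [Pi.single_apply]
  have h4 : M z = ∑ b, z b • M (EuclideanSpace.single b (1 : ℂ)) := by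
    conv_lhs => rw [h3]
    rw [map_sum]
    exact Finset.sum_congr rfl fun b _ => map_smul _ _ _
  rw [h4]
  simp [mul_comm]

theorem mm_one {n : ℕ} (o o' : Option (Fin n)) :
    mm (1 : V n →L[ℂ] V n) o o' = if o = o' then 1 else 0 := by
  rcases o with _ | i <;> rcases o' with _ | j
  · simp [mm]
  · simp [mm]
  · simp [mm]
  · simp only [mm, Option.some.injEq]
    change (EuclideanSpace.single j (1 : ℂ) : V n) i = _
    rw [PiLp.single_apply]

theorem mm_mul {n : ℕ} (M N : V n →L[ℂ] V n) (o o' : Option (Fin n)) :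
    mm (M * N) o o' = ∑ p, mm M o p * mm N p o' := by
  rw [Fintype.sum_option]
  rcases o with _ | i <;> rcases o' with _ | j
  · simp [mm]
  · simp [mm]
  · simp [mm]
  · simp only [mm, zero_mul, zero_add]
    exact basis_exp M _ i

theorem mm_Zv {n : ℕ} (M : V n →L[ℂ] V n) (z : V n) (o : Option (Fin n)) :
    ∑ p, mm M o p * Zv z p = Zv (M z) o := by
  rw [Fintype.sum_option]
  rcases o with _ | i
  · simp [mm, Zv]
  · simp only [mm, Zv, zero_mul, zero_add]
    exact (basis_exp M z i).symm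

theorem mm_iso {n : ℕ} (U : V n ≃ₗᵢ[ℂ] V n) (p p' : Option (Fin n)) :
    ∑ o, mm (U : V n →L[ℂ] V n) o p * conj (mm (U : V n →L[ℂ] V n) o p') =
      if p = p' then 1 else 0 := by
  rw [Fintype.sum_option]
  rcases p with _ | i <;> rcases p' with _ | j
  · simp [mm]
  · simp [mm]
  · simp [mm]
  · simp only [mm, zero_mul, zero_add, Option.some.injEq]
    have h1 : inner ℂ (U (EuclideanSpace.single j (1 : ℂ))) (U (EuclideanSpace.single i (1 : ℂ))) =
        if i = j then 1 else 0 := by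
      rw [LinearIsometryEquiv.inner_map_map, EuclideanSpace.inner_single_left, map_one, one_mul,
        PiLp.single_apply]
      by_cases h : i = j
      · rw [if_pos h, if_pos h.symm]
      · rw [if_neg h, if_neg (Ne.symm h)]
    rw [← h1, PiLp.inner_apply]
    refine Finset.sum_congr rfl fun a _ => ?_
    rfl

section

variable {n k : ℕ}

theorem psum (F : Fin k → Option (Fin n) → ℂ) :
    ∑ c : Fin k → Option (Fin n), ∏ l, F l (c l) = ∏ l, ∑ o, F l o := by
  classical
  rw [Finset.prod_univ_sum, Fintype.piFinset_univ]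

/-- the index set -/
abbrev Ix (n k : ℕ) := (Fin k → Option (Fin n)) × (Fin k → Option (Fin n))

theorem psum2 (F G : Fin k → Option (Fin n) → ℂ) :
    ∑ c : Ix n k, (∏ l, F l (c.1 l)) * (∏ l, G l (c.2 l)) =
      (∏ l, ∑ o, F l o) * ∏ l, ∑ o, G l o := by
  rw [← psum, ← psum, Fintype.sum_prod_type, Finset.sum_mul_sum]

/-- the matrix on the tensors -/
noncomputable def Ph (k : ℕ) (M : V n →L[ℂ] V n) (x y : Ix n k) : ℂ :=
  (∏ l, conj (mm M (x.1 l) (y.1 l))) * ∏ l, mm M (x.2 l) (y.2 l)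

/-- the vectors of the evaluations -/
noncomputable def ee (k : ℕ) (z w : V n) (x : Ix n k) : ℂ :=
  (∏ l, conj (Zv z (x.1 l))) * ∏ l, Zv w (x.2 l)

theorem delta (a b : Fin k → Option (Fin n)) :
    (∏ l, if a l = b l then (1 : ℂ) else 0) = if a = b then 1 else 0 := by
  rw [Finset.prod_ite_zero]
  simp [funext_iff]

theorem delta2 (x y : Ix n k) :
    ((if x.1 = y.1 then (1 : ℂ) else 0) * if x.2 = y.2 then (1 : ℂ) else 0) =
      if x = y then 1 else 0 := by
  by_cases h1 : x.1 = y.1 <;> by_cases h2 : x.2 = y.2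
  · rw [if_pos h1, if_pos h2, if_pos (Prod.ext h1 h2), mul_one]
  · rw [if_neg h2, if_neg (fun h => h2 (congrArg Prod.snd h)), mul_zero]
  · rw [if_neg h1, if_neg (fun h => h1 (congrArg Prod.fst h)), zero_mul]
  · rw [if_neg h1, if_neg (fun h => h1 (congrArg Prod.fst h)), zero_mul]

theorem Ph_one (x y : Ix n k) : Ph k (1 : V n →L[ℂ] V n) x y = if x = y then 1 else 0 := by
  unfold Ph
  have h1 : ∀ l, conj (mm (1 : V n →L[ℂ] V n) (x.1 l) (y.1 l)) =
      if x.1 l = y.1 l then (1 : ℂ) else 0 := by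
    intro l
    rw [mm_one]
    split_ifs <;> simp
  rw [Finset.prod_congr rfl fun l _ => h1 l, Finset.prod_congr rfl fun l _ => mm_one _ _, delta,
    delta, delta2]

theorem Ph_mul (M N : V n →L[ℂ] V n) (x y : Ix n k) :
    Ph k (M * N) x y = ∑ c, Ph k M x c * Ph k N c y := by
  have h1 : ∀ c : Ix n k, Ph k M x c * Ph k N c y =
      (∏ l, conj (mm M (x.1 l) (c.1 l)) * conj (mm N (c.1 l) (y.1 l))) *
        ∏ l, mm M (x.2 l) (c.2 l) * mm N (c.2 l) (y.2 l) := by
    intro c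
    unfold Ph
    rw [Finset.prod_mul_distrib, Finset.prod_mul_distrib]
    ring
  rw [Finset.sum_congr rfl fun c _ => h1 c]
  rw [psum2 (fun l o => conj (mm M (x.1 l) o) * conj (mm N o (y.1 l)))
    (fun l o => mm M (x.2 l) o * mm N o (y.2 l))]
  unfold Ph
  congr 1
  · refine Finset.prod_congr rfl fun l _ => ?_
    rw [mm_mul, map_sum]
    exact Finset.sum_congr rfl fun o _ => map_mul _ _ _
  · exact Finset.prod_congr rfl fun l _ => mm_mul _ _ _ _

theorem Ph_ee (M : V n →L[ℂ] V n) (z w : V n) (x : Ix n k) :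
    ∑ c, Ph k M x c * ee k z w c = ee k (M z) (M w) x := by
  have h1 : ∀ c : Ix n k, Ph k M x c * ee k z w c =
      (∏ l, conj (mm M (x.1 l) (c.1 l)) * conj (Zv z (c.1 l))) *
        ∏ l, mm M (x.2 l) (c.2 l) * Zv w (c.2 l) := by
    intro c
    unfold Ph ee
    rw [Finset.prod_mul_distrib, Finset.prod_mul_distrib]
    ring
  rw [Finset.sum_congr rfl fun c _ => h1 c]
  rw [psum2 (fun l o => conj (mm M (x.1 l) o) * conj (Zv z o))
    (fun l o => mm M (x.2 l) o * Zv w o)]
  unfold ee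
  congr 1
  · refine Finset.prod_congr rfl fun l _ => ?_
    rw [← mm_Zv, map_sum]
    exact Finset.sum_congr rfl fun o _ => (map_mul _ _ _).symm
  · exact Finset.prod_congr rfl fun l _ => mm_Zv _ _ _

theorem Ph_iso (U : V n ≃ₗᵢ[ℂ] V n) (y y' : Ix n k) :
    ∑ x, Ph k (U : V n →L[ℂ] V n) x y * conj (Ph k (U : V n →L[ℂ] V n) x y') =
      if y = y' then 1 else 0 := by
  have h1 : ∀ x : Ix n k, Ph k (U : V n →L[ℂ] V n) x y * conj (Ph k (U : V n →L[ℂ] V n) x y') =
      (∏ l, conj (mm (U : V n →L[ℂ] V n) (x.1 l) (y.1 l) *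
        conj (mm (U : V n →L[ℂ] V n) (x.1 l) (y'.1 l)))) *
        ∏ l, mm (U : V n →L[ℂ] V n) (x.2 l) (y.2 l) *
          conj (mm (U : V n →L[ℂ] V n) (x.2 l) (y'.2 l)) := by
    intro x
    unfold Ph
    rw [Finset.prod_mul_distrib, map_mul, map_prod, map_prod]
    have h2 : ∀ l, conj (mm (U : V n →L[ℂ] V n) (x.1 l) (y.1 l) *
        conj (mm (U : V n →L[ℂ] V n) (x.1 l) (y'.1 l))) =
        conj (mm (U : V n →L[ℂ] V n) (x.1 l) (y.1 l)) *
        conj (conj (mm (U : V n →L[ℂ] V n) (x.1 l) (y'.1 l))) := fun l => map_mul _ _ _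
    rw [Finset.prod_congr rfl fun l _ => h2 l, Finset.prod_mul_distrib]
    ring
  rw [Finset.sum_congr rfl fun x _ => h1 x]
  rw [psum2 (fun l o => conj (mm (U : V n →L[ℂ] V n) o (y.1 l) *
        conj (mm (U : V n →L[ℂ] V n) o (y'.1 l))))
    (fun l o => mm (U : V n →L[ℂ] V n) o (y.2 l) * conj (mm (U : V n →L[ℂ] V n) o (y'.2 l)))]
  have h3 : ∀ l, ∑ o, conj (mm (U : V n →L[ℂ] V n) o (y.1 l) *
        conj (mm (U : V n →L[ℂ] V n) o (y'.1 l))) = if y.1 l = y'.1 l then (1 : ℂ) else 0 := by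
    intro l
    rw [← map_sum, mm_iso]
    split_ifs <;> simp
  rw [Finset.prod_congr rfl fun l _ => h3 l, Finset.prod_congr rfl fun l _ => mm_iso U _ _, delta,
    delta, delta2]

/-- the sesquilinear form is invariant -/
theorem Ph_inv (U : V n ≃ₗᵢ[ℂ] V n) (s t : Ix n k → ℂ) :
    ∑ x, (∑ y, Ph k (U : V n →L[ℂ] V n) x y * s y) *
      conj (∑ y, Ph k (U : V n →L[ℂ] V n) x y * t y) = ∑ y, s y * conj (t y) := by
  have h1 : ∀ x : Ix n k, (∑ y, Ph k (U : V n →L[ℂ] V n) x y * s y) *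
      conj (∑ y, Ph k (U : V n →L[ℂ] V n) x y * t y) =
      ∑ y, ∑ y', s y * conj (t y') *
        (Ph k (U : V n →L[ℂ] V n) x y * conj (Ph k (U : V n →L[ℂ] V n) x y')) := by
    intro x
    rw [map_sum, Finset.sum_mul_sum]
    refine Finset.sum_congr rfl fun y _ => Finset.sum_congr rfl fun y' _ => ?_
    rw [map_mul]
    ring
  rw [Finset.sum_congr rfl fun x _ => h1 x, Finset.sum_comm]
  refine Finset.sum_congr rfl fun y _ => ?_
  rw [Finset.sum_comm]
  have h2 : ∀ y' : Ix n k, ∑ x, s y * conj (t y') *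
      (Ph k (U : V n →L[ℂ] V n) x y * conj (Ph k (U : V n →L[ℂ] V n) x y')) =
      s y * conj (t y') * if y = y' then 1 else 0 := by
    intro y'
    rw [← Finset.mul_sum, Ph_iso]
  rw [Finset.sum_congr rfl fun y' _ => h2 y']
  simp

end

/-- the space of the tensors -/
abbrev TT (n k : ℕ) := EuclideanSpace ℂ (Ix n k)

section

variable {n k : ℕ}

/-- the matrix units -/
noncomputable def Bu (x y : Ix n k) : TT n k →L[ℂ] TT n k :=
  (EuclideanSpace.proj y : TT n k →L[ℂ] ℂ).smulRight (EuclideanSpace.single x (1 : ℂ))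

/-- the representation -/
noncomputable def Th (k : ℕ) (M : V n →L[ℂ] V n) : TT n k →L[ℂ] TT n k :=
  ∑ x, ∑ y, Ph k M x y • Bu x y

theorem Bu_apply (x y : Ix n k) (t : TT n k) (a : Ix n k) :
    (Bu x y t) a = if a = x then t y else 0 := by
  change t y * (EuclideanSpace.single x (1 : ℂ) : TT n k) a = _
  rw [PiLp.single_apply]
  split_ifs <;> simp

theorem Th_apply (M : V n →L[ℂ] V n) (t : TT n k) (x : Ix n k) :
    (Th k M t) x = ∑ y, Ph k M x y * t y := by
  change (EuclideanSpace.proj x : TT n k →L[ℂ] ℂ) (Th k M t) = _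
  unfold Th
  simp only [sum_apply, map_sum, smul_apply, map_smul]
  have h1 : ∀ a b : Ix n k, (EuclideanSpace.proj x : TT n k →L[ℂ] ℂ) (Bu a b t) =
      if x = a then t b else 0 := fun a b => Bu_apply a b t x
  simp only [h1, smul_eq_mul]
  rw [Finset.sum_comm]
  refine Finset.sum_congr rfl fun y _ => ?_
  simp

theorem Th_one : Th k (1 : V n →L[ℂ] V n) = 1 := by
  ext t x
  rw [Th_apply]
  simp [Ph_one]

theorem Th_mul (M N : V n →L[ℂ] V n) : Th k (M * N) = Th k M * Th k N := by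
  ext t x
  change _ = (Th k M (Th k N t)) x
  rw [Th_apply, Th_apply]
  simp only [Th_apply, Ph_mul, Finset.mul_sum, Finset.sum_mul]
  rw [Finset.sum_comm]
  refine Finset.sum_congr rfl fun y _ => Finset.sum_congr rfl fun c _ => ?_
  ring

theorem Th_iso (U : V n ≃ₗᵢ[ℂ] V n) (t : TT n k) : ‖Th k (U : V n →L[ℂ] V n) t‖ = ‖t‖ := by
  rw [EuclideanSpace.norm_eq, EuclideanSpace.norm_eq]
  congr 1
  have h1 := Ph_inv (k := k) U (fun y => t y) (fun y => t y)
  have h2 : ∀ z : ℂ, z * conj z = ((‖z‖ ^ 2 : ℝ) : ℂ) := by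
    intro z
    rw [Complex.mul_conj']
    push_cast
    rfl
  have h3 : ((∑ x, ‖(Th k (U : V n →L[ℂ] V n) t) x‖ ^ 2 : ℝ) : ℂ) =
      ((∑ x, ‖t x‖ ^ 2 : ℝ) : ℂ) := by
    rw [Complex.ofReal_sum, Complex.ofReal_sum]
    rw [Finset.sum_congr rfl fun x _ => (h2 _).symm, Finset.sum_congr rfl fun x _ => (h2 _).symm]
    simp only [Th_apply]
    exact h1
  exact_mod_cast h3

/-- the kernels of the tensors -/
noncomputable def kap (n k : ℕ) : TT n k →ₗ[ℂ] (V n → V n → ℂ) where
  toFun t z w := ∑ x, t x * conj (ee k z w x)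
  map_add' s t := by
    funext z w
    change ∑ x, (s x + t x) * conj (ee k z w x) =
      ∑ x, s x * conj (ee k z w x) + ∑ x, t x * conj (ee k z w x)
    rw [← Finset.sum_add_distrib]
    exact Finset.sum_congr rfl fun x _ => add_mul _ _ _
  map_smul' c t := by
    funext z w
    change ∑ x, (c * t x) * conj (ee k z w x) = c * ∑ x, t x * conj (ee k z w x)
    rw [Finset.mul_sum]
    exact Finset.sum_congr rfl fun x _ => mul_assoc _ _ _

theorem kap_apply (t : TT n k) (z w : V n) : kap n k t z w = ∑ x, t x * conj (ee k z w x) := rfl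

theorem kap_inv (U : V n ≃ₗᵢ[ℂ] V n) (t : TT n k) (z w : V n) :
    kap n k (Th k (U : V n →L[ℂ] V n) t) (U z) (U w) = kap n k t z w := by
  rw [kap_apply, kap_apply, ← Ph_inv (k := k) U (fun y => t y) (ee k z w)]
  refine Finset.sum_congr rfl fun x _ => ?_
  rw [Th_apply, Ph_ee]
  rfl

/-! ### smoothness -/

theorem mm_smooth (o o' : Option (Fin n)) :
    ContDiff ℝ 2 fun X : V n →L[ℂ] V n => mm (1 + X) o o' := by
  rcases o with _ | i <;> rcases o' with _ | j
  · exact contDiff_const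
  · exact contDiff_const
  · exact contDiff_const
  · have h1 : ContDiff ℝ 2 fun X : V n →L[ℂ] V n =>
        (EuclideanSpace.single j (1 : ℂ) : V n) i + (X (EuclideanSpace.single j (1 : ℂ))) i := by
      refine contDiff_const.add ?_
      exact (((EuclideanSpace.proj i : V n →L[ℂ] ℂ).comp
        (ContinuousLinearMap.apply ℂ (V n)
          (EuclideanSpace.single j (1 : ℂ) : V n))).restrictScalars ℝ).contDiff
    exact h1

theorem Ph_smooth (x y : Ix n k) : ContDiff ℝ 2 fun X : V n →L[ℂ] V n => Ph k (1 + X) x y := by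
  unfold Ph
  refine ContDiff.mul (contDiff_prod fun l _ => ?_) (contDiff_prod fun l _ => mm_smooth _ _)
  exact Complex.conjCLE.contDiff.comp (mm_smooth _ _)

theorem Th_smooth : ContDiff ℝ 2 fun X : V n →L[ℂ] V n => Th k (1 + X) := by
  unfold Th
  exact ContDiff.sum fun x _ => ContDiff.sum fun y _ => (Ph_smooth x y).smul contDiff_const

/-! ### the range -/

theorem word_list (L : List (Option (Fin n))) (h : L.length = k) :
    ∃ c : Fin k → Option (Fin n), ∀ F : Option (Fin n) → ℂ, ∏ l, F (c l) = (L.map F).prod := by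
  subst h
  exact ⟨fun l => L[l.1], fun F => Fin.prod_univ_fun_getElem L F⟩

theorem word (m : Fin n →₀ ℕ) (h : (m.sum fun _ e => e) ≤ k) :
    ∃ c : Fin k → Option (Fin n), ∀ z : V n, ∏ l, Zv z (c l) = m.prod fun i e => z i ^ e := by
  have hc : (Finsupp.toMultiset m).toList.length = m.sum fun _ e => e := by
    rw [Multiset.length_toList, Finsupp.card_toMultiset]
    rfl
  obtain ⟨c, hc2⟩ := word_list (k := k) ((Finsupp.toMultiset m).toList.map some ++
    List.replicate (k - m.sum fun _ e => e) none) (by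
      rw [List.length_append, List.length_map, List.length_replicate, hc]
      omega)
  refine ⟨c, fun z => ?_⟩
  rw [hc2, List.map_append, List.prod_append, List.map_map, List.map_replicate,
    List.prod_replicate]
  have h1 : Zv z none = 1 := rfl
  rw [h1, one_pow, mul_one, Multiset.prod_map_toList]
  rw [Finsupp.toMultiset_map, Finsupp.prod_toMultiset, Finsupp.prod_mapDomain_index]
  · rfl
  · intro b
    exact pow_zero b
  · intro b e e'
    exact pow_add b e e'

theorem coefs (P : MvPolynomial (Fin n) ℂ) (h : P.totalDegree ≤ k) :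
    ∃ α : (Fin k → Option (Fin n)) → ℂ, ∀ z : V n, ev P z = ∑ c, α c * ∏ l, Zv z (c l) := by
  classical
  have hw : ∀ m : P.support, ∃ c : Fin k → Option (Fin n), ∀ z : V n,
      ∏ l, Zv z (c l) = (m : Fin n →₀ ℕ).prod fun i e => z i ^ e := fun m =>
    word m.1 ((MvPolynomial.le_totalDegree m.2).trans h)
  choose w hw using hw
  refine ⟨fun c => ∑ m : P.support, if c = w m then P.coeff m else 0, fun z => ?_⟩
  have h1 : ∀ c, (∑ m : P.support, if c = w m then P.coeff m else 0) * ∏ l, Zv z (c l) =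
      ∑ m : P.support, if c = w m then P.coeff m * ∏ l, Zv z (c l) else 0 := by
    intro c
    rw [Finset.sum_mul]
    refine Finset.sum_congr rfl fun m _ => ?_
    rw [ite_mul, zero_mul]
  rw [Finset.sum_congr rfl fun c _ => h1 c, Finset.sum_comm]
  unfold ev
  rw [MvPolynomial.eval_eq, ← Finset.sum_coe_sort P.support]
  refine Finset.sum_congr rfl fun m _ => ?_
  rw [Finset.sum_ite_eq' Finset.univ (w m)]
  simp only [Finset.mem_univ, if_true]
  rw [hw]
  rfl

theorem prod_mem_range (P Q : MvPolynomial (Fin n) ℂ) (hP : P.totalDegree ≤ k)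
    (hQ : Q.totalDegree ≤ k) :
    (fun z w => ev P z * conj (ev Q w)) ∈ LinearMap.range (kap n k) := by
  obtain ⟨α, hα⟩ := coefs P hP
  obtain ⟨β, hβ⟩ := coefs Q hQ
  refine ⟨WithLp.toLp 2 fun x => α x.1 * conj (β x.2), ?_⟩
  funext z w
  rw [kap_apply, hα, hβ, map_sum, Finset.sum_mul_sum, Fintype.sum_prod_type]
  refine Finset.sum_congr rfl fun c _ => Finset.sum_congr rfl fun d _ => ?_
  change α c * conj (β d) * conj (ee k z w (c, d)) = _
  unfold ee
  rw [map_mul, map_mul, map_prod, map_prod]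
  simp only [Complex.conj_conj]
  ring

theorem hker_mem_range {i j : ℕ} (hi : i ≤ k) (hj : j ≤ k) {u : V n → V n → ℂ}
    (hu : HKer i j u) : u ∈ LinearMap.range (kap n k) := by
  obtain ⟨m, a, b, h1, h2⟩ := hu
  have h3 : u = ∑ x, fun z w => ev (a x) z * conj (ev (b x) w) := by
    funext z w
    rw [h2, Finset.sum_apply, Finset.sum_apply]
  rw [h3]
  exact Submodule.sum_mem _ fun x _ => prod_mem_range _ _ ((h1 x).1.totalDegree_le.trans hi)
    ((h1 x).2.totalDegree_le.trans hj)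

theorem aker_mem_range {u : V n → V n → ℂ} (hu : AKer k u) :
    u ∈ LinearMap.range (kap n k) := by
  obtain ⟨v, h1, -, -, -, h5⟩ := hu
  have h3 : u = ∑ i ∈ Finset.range (k + 1), ∑ j ∈ Finset.range (k + 1), v i j := by
    funext z w
    rw [h5, Finset.sum_apply, Finset.sum_apply]
    refine Finset.sum_congr rfl fun i _ => ?_
    rw [Finset.sum_apply, Finset.sum_apply]
  rw [h3]
  refine Submodule.sum_mem _ fun i hi => Submodule.sum_mem _ fun j hj => ?_
  have hi' := Finset.mem_range.mp hi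
  have hj' := Finset.mem_range.mp hj
  exact hker_mem_range (by omega) (by omega) (h1 i j)

end

/-- **REPK** -/
theorem t_REPK : S_REPK := by
  intro n k
  obtain ⟨C, hC, hC2⟩ := taylor (fun X : V n →L[ℂ] V n => Th k (1 + X)) Th_smooth
  refine reduce n k (TT n k) (Th k) Th_one Th_mul Th_iso
    (fderiv ℝ (fun X : V n →L[ℂ] V n => Th k (1 + X)) 0 : _ →ₗ[ℝ] _) C hC ?_ (kap n k) kap_inv
    (fun u hu => aker_mem_range hu)
  intro M hM
  have h1 := hC2 (M - 1) hM
  have h2 : (1 : V n →L[ℂ] V n) + (M - 1) = M := by abel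
  have h3 : (1 : V n →L[ℂ] V n) + 0 = 1 := add_zero _
  beta_reduce at h1
  rw [h2, h3, Th_one] at h1
  exact h1

end Pool.Agent.H84.RS
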